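import Mathlib

namespace Pool.Agent.Results.MP_c2c39f_an.Sublinear

open Filter MeasureTheory Set Matrix intervalIntegral

/-- `x` is a trajectory of the switching system `𝒜` (integral form of `x' = A(t) x`). -/
def IsTraj {d : ℕ} (𝒜 : Set (Matrix (Fin d) (Fin d) ℝ)) (x : ℝ → Fin d → ℝ) : Prop :=
  ∃ A : ℝ → Matrix (Fin d) (Fin d) ℝ, (∀ i j, Measurable fun t => A t i j) ∧
    (∀ t, 0 ≤ t → A t ∈ 𝒜) ∧ ContinuousOn x (Ici 0) ∧
    ∀ t, 0 ≤ t → x t = x 0 + ∫ s in (0 : ℝ)..t, A s *ᵥ x s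

/-- The Lyapunov exponent of the system. -/
noncomputable def lyap {d : ℕ} (𝒜 : Set (Matrix (Fin d) (Fin d) ℝ)) : EReal :=
  ⨆ x ∈ {x | IsTraj 𝒜 x},
    limsup (fun t : ℝ => ((1 / t : ℝ) : EReal) * ENNReal.log ‖x t‖ₑ) atTop

/-- The growth function `M(t)`. -/
noncomputable def growth {d : ℕ} (𝒜 : Set (Matrix (Fin d) (Fin d) ℝ)) (t : ℝ) : ENNReal :=
  ⨆ x ∈ {x | IsTraj 𝒜 x ∧ ‖x 0‖ ≤ 1}, ‖x t‖ₑ

/-- the family -/
def F : Set (Matrix (Fin 2) (Fin 2) ℝ) := (fun s : ℝ => !![0, s; 0, -s ^ 2]) '' Icc 0 1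

theorem scal (s y : ℝ → ℝ) (hs : Measurable s) (hs1 : ∀ t, 0 ≤ t → s t ∈ Icc (0 : ℝ) 1)
    (hy : ContinuousOn y (Ici 0)) (k : ℕ) (a b : ℝ) (ha : 0 ≤ a) (hb : 0 ≤ b) :
    IntervalIntegrable (fun t => s t ^ k * y t) volume a b := by
  have hsub : uIcc a b ⊆ Ici 0 := fun t ht => le_trans (le_min ha hb) ht.1
  have h1 : IntervalIntegrable y volume a b := (hy.mono hsub).intervalIntegrable
  rw [intervalIntegrable_iff] at h1 ⊢
  refine h1.bdd_mul (c := 1) (hs.pow_const k).aestronglyMeasurable ?_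
  refine (ae_restrict_iff' measurableSet_uIoc).2 (ae_of_all _ fun t ht => ?_)
  have := hs1 t (hsub (uIoc_subset_uIcc ht))
  rw [Real.norm_eq_abs, abs_of_nonneg (pow_nonneg this.1 k)]
  exact pow_le_one₀ this.1 this.2

theorem sc {f : ℝ → ℝ} {a b : ℝ} (h : IntervalIntegrable f volume a b) (v : Fin 2 → ℝ) :
    IntervalIntegrable (fun r => f r • v) volume a b :=
  ⟨Integrable.smul_const h.1 v, Integrable.smul_const h.2 v⟩

theorem sign (s y : ℝ → ℝ) (hs : Measurable s) (hs1 : ∀ t, 0 ≤ t → s t ∈ Icc (0 : ℝ) 1)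
    (hy : ContinuousOn y (Ici 0)) (he : ∀ t, 0 ≤ t → y t = y 0 - ∫ r in (0 : ℝ)..t, s r ^ 2 * y r)
    (h0 : 0 ≤ y 0) (t : ℝ) (ht : 0 ≤ t) : 0 ≤ y t := by
  by_contra hneg
  push Not at hneg
  have hK : IsCompact (Icc 0 t ∩ y ⁻¹' Ici 0) :=
    isCompact_Icc.of_isClosed_subset
      ((hy.mono Icc_subset_Ici_self).preimage_isClosed_of_isClosed isClosed_Icc isClosed_Ici)
      inter_subset_left
  obtain ⟨a, ⟨ha, hya⟩, hmax⟩ := hK.exists_isGreatest ⟨0, ⟨le_rfl, ht⟩, h0⟩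
  have h1 : ∫ r in a..t, s r ^ 2 * y r ≤ 0 := by
    rw [integral_of_le ha.2]
    refine setIntegral_nonpos measurableSet_Ioc fun r hr => ?_
    have : y r ≤ 0 := by
      by_contra h
      push Not at h
      exact absurd (hmax ⟨⟨ha.1.trans hr.1.le, hr.2⟩, h.le⟩) (not_le.2 hr.1)
    exact mul_nonpos_of_nonneg_of_nonpos (sq_nonneg _) this
  have h2 := integral_add_adjacent_intervals (scal s y hs hs1 hy 2 0 a le_rfl ha.1)
    (scal s y hs hs1 hy 2 a t ha.1 ht)
  have h3 := he t ht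
  have h4 := he a ha.1
  have : (0 : ℝ) ≤ y a := hya
  linarith

theorem bnd (s y : ℝ → ℝ) (hs : Measurable s) (hs1 : ∀ t, 0 ≤ t → s t ∈ Icc (0 : ℝ) 1)
    (hy : ContinuousOn y (Ici 0)) (he : ∀ t, 0 ≤ t → y t = y 0 - ∫ r in (0 : ℝ)..t, s r ^ 2 * y r)
    (h0 : 0 ≤ y 0) (e : ℝ) (he0 : 0 < e) (t : ℝ) (ht : 0 ≤ t) :
    |y t| ≤ |y 0| ∧ |∫ r in (0 : ℝ)..t, s r ^ 1 * y r| ≤ |y 0| * (1 / e + e * t) := by
  have hp := sign s y hs hs1 hy he h0
  have hle : ∀ t, 0 ≤ t → y t ≤ y 0 := fun t ht => by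
    have : 0 ≤ ∫ r in (0 : ℝ)..t, s r ^ 2 * y r :=
      integral_nonneg ht fun r hr => mul_nonneg (sq_nonneg _) (hp r hr.1)
    linarith [he t ht]
  rw [abs_of_nonneg (hp t ht), abs_of_nonneg h0, abs_of_nonneg
    (integral_nonneg ht fun r hr => mul_nonneg (pow_nonneg (hs1 r hr.1).1 _) (hp r hr.1))]
  refine ⟨hle t ht, ?_⟩
  have i1 := scal s y hs hs1 hy 1 0 t le_rfl ht
  have i2 := scal s y hs hs1 hy 2 0 t le_rfl ht
  have h1 : ∫ r in (0 : ℝ)..t, s r ^ 1 * y r ≤
      ∫ r in (0 : ℝ)..t, (1 / e * (s r ^ 2 * y r) + e * y 0) := by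
    refine integral_mono_on ht i1 ((i2.const_mul _).add intervalIntegrable_const) fun r hr => ?_
    have a1 := hp r hr.1
    have a2 := hle r hr.1
    have a3 : s r ≤ 1 / e * s r ^ 2 + e := by
      rw [← sub_nonneg]
      have : 1 / e * s r ^ 2 + e - s r = 1 / e * ((s r - e / 2) ^ 2 + 3 / 4 * e ^ 2) := by
        field_simp; ring
      rw [this]; positivity
    nlinarith [mul_le_mul_of_nonneg_right a3 a1]
  rw [intervalIntegral.integral_add (i2.const_mul _) intervalIntegrable_const,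
    intervalIntegral.integral_const_mul] at h1
  have h2 : ∫ r in (0 : ℝ)..t, s r ^ 2 * y r ≤ y 0 := by linarith [he t ht, hp t ht]
  have h3 := mul_le_mul_of_nonneg_left h2 (by positivity : 0 ≤ 1 / e)
  simp only [intervalIntegral.integral_const, sub_zero, smul_eq_mul] at h1
  nlinarith

theorem main (x : ℝ → Fin 2 → ℝ) (hx : IsTraj F x) (e : ℝ) (he0 : 0 < e) (t : ℝ) (ht : 0 ≤ t) :
    ‖x t‖ ≤ ‖x 0‖ * (1 + 1 / e + e * t) := by
  obtain ⟨A, hm, hA, hc, hi⟩ := hx
  set s : ℝ → ℝ := fun t => A t 0 1 with hsdef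
  have hAs : ∀ t, 0 ≤ t → s t ∈ Icc (0 : ℝ) 1 ∧ A t = !![0, s t; 0, -s t ^ 2] := by
    intro t ht
    obtain ⟨r, hr, h⟩ := hA t ht
    have : s t = r := by simp [hsdef, ← h]
    rw [this]; exact ⟨hr, h.symm⟩
  have hs : Measurable s := hm 0 1
  have hs1 := fun t ht => (hAs t ht).1
  have hy : ContinuousOn (fun t => x t 1) (Ici 0) := (continuous_apply 1).comp_continuousOn hc
  have hint : ∀ t, 0 ≤ t → (∫ r in (0 : ℝ)..t, A r *ᵥ x r) =
      ![∫ r in (0 : ℝ)..t, s r ^ 1 * x r 1, -∫ r in (0 : ℝ)..t, s r ^ 2 * x r 1] := by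
    intro t ht
    have : ∫ r in (0 : ℝ)..t, A r *ᵥ x r = ∫ r in (0 : ℝ)..t,
        ((s r ^ 1 * x r 1) • (![1, 0] : Fin 2 → ℝ) + (s r ^ 2 * x r 1) • ![0, -1]) := by
      refine integral_congr fun r hr => ?_
      have hr0 : 0 ≤ r := le_trans (le_min le_rfl ht) hr.1
      rw [(hAs r hr0).2]
      ext i; fin_cases i <;> simp [mulVec, dotProduct]
    rw [this, intervalIntegral.integral_add (sc (scal s _ hs hs1 hy 1 0 t le_rfl ht) _)
      (sc (scal s _ hs hs1 hy 2 0 t le_rfl ht) _), intervalIntegral.integral_smul_const,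
      intervalIntegral.integral_smul_const]
    ext i; fin_cases i <;> simp
  have he : ∀ t, 0 ≤ t → x t 1 = x 0 1 - ∫ r in (0 : ℝ)..t, s r ^ 2 * x r 1 := fun t ht => by
    have := congrFun (hi t ht) 1
    rw [hint t ht] at this
    simpa [sub_eq_add_neg] using this
  have he' : x t 0 = x 0 0 + ∫ r in (0 : ℝ)..t, s r ^ 1 * x r 1 := by
    have := congrFun (hi t ht) 0
    rw [hint t ht] at this
    simpa using this
  have key : |x t 1| ≤ |x 0 1| ∧
      |∫ r in (0 : ℝ)..t, s r ^ 1 * x r 1| ≤ |x 0 1| * (1 / e + e * t) := by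
    rcases le_total 0 (x 0 1) with h0 | h0
    · exact bnd s _ hs hs1 hy he h0 e he0 t ht
    · have := bnd s (fun t => -x t 1) hs hs1 hy.neg (fun t ht => by
        simp only [mul_neg, intervalIntegral.integral_neg]; linarith [he t ht]) (by simpa using h0) e he0 t ht
      simpa only [mul_neg, intervalIntegral.integral_neg, abs_neg] using this
  have n0 : |x 0 0| ≤ ‖x 0‖ := norm_le_pi_norm (x 0) 0
  have n1 : |x 0 1| ≤ ‖x 0‖ := norm_le_pi_norm (x 0) 1
  have hq : 0 ≤ 1 / e + e * t := by positivity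
  refine (pi_norm_le_iff_of_nonneg (by positivity)).2 fun i => ?_
  fin_cases i
  · have := abs_add_le (x 0 0) (∫ r in (0 : ℝ)..t, s r ^ 1 * x r 1)
    change |x t 0| ≤ _
    rw [he']
    nlinarith [mul_le_mul_of_nonneg_right n1 hq, key.2]
  · change |x t 1| ≤ _
    nlinarith [mul_nonneg (norm_nonneg (x 0)) hq, key.1]

/-- an unbounded trajectory -/
noncomputable def z (t : ℝ) : Fin 2 → ℝ :=
  ![∫ r in (0 : ℝ)..t, 1 / (|r| + 1) * Real.exp (1 / (|r| + 1)), Real.exp (1 / (|t| + 1))]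

theorem cg : Continuous fun r : ℝ => 1 / (|r| + 1) :=
  continuous_const.div (by fun_prop) fun r => by positivity

theorem hz : IsTraj F z := by
  have c1 : Continuous fun r : ℝ => 1 / (|r| + 1) * Real.exp (1 / (|r| + 1)) :=
    cg.mul (Real.continuous_exp.comp cg)
  have c2 : Continuous fun r : ℝ => -(1 / (|r| + 1)) ^ 2 * Real.exp (1 / (|r| + 1)) :=
    (cg.pow 2).neg.mul (Real.continuous_exp.comp cg)
  refine ⟨fun t => !![0, 1 / (|t| + 1); 0, -(1 / (|t| + 1)) ^ 2], fun i j => ?_, fun t _ => ?_,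
    Continuous.continuousOn ?_, fun t ht => ?_⟩
  · fin_cases i <;> fin_cases j
    · exact measurable_const
    · exact cg.measurable
    · exact measurable_const
    · exact (cg.pow 2).neg.measurable
  · refine ⟨1 / (|t| + 1), ⟨by positivity, ?_⟩, rfl⟩
    rw [div_le_one (by positivity)]; linarith [abs_nonneg t]
  · refine continuous_pi fun i => ?_
    fin_cases i
    · exact continuous_primitive (fun a b => c1.intervalIntegrable a b) 0
    · exact Real.continuous_exp.comp cg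
  · have : ∫ r in (0 : ℝ)..t, !![0, 1 / (|r| + 1); 0, -(1 / (|r| + 1)) ^ 2] *ᵥ z r =
        ∫ r in (0 : ℝ)..t, ((1 / (|r| + 1) * Real.exp (1 / (|r| + 1))) • (![1, 0] : Fin 2 → ℝ) +
          (-(1 / (|r| + 1)) ^ 2 * Real.exp (1 / (|r| + 1))) • ![0, 1]) := by
      refine integral_congr fun r _ => ?_
      ext i; fin_cases i <;> simp [mulVec, dotProduct, z]
    have h2 : ∫ r in (0 : ℝ)..t, -(1 / (|r| + 1)) ^ 2 * Real.exp (1 / (|r| + 1)) =
        Real.exp (1 / (t + 1)) - Real.exp (1 / (0 + 1)) := by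
      refine integral_eq_sub_of_hasDerivAt (f := fun r => Real.exp (1 / (r + 1)))
        (fun r hr => ?_) (c2.intervalIntegrable _ _)
      have hr0 : 0 ≤ r := le_trans (le_min le_rfl ht) hr.1
      have := (((hasDerivAt_id r).add_const 1).inv (by simp only [id]; positivity)).exp
      rw [abs_of_nonneg hr0]
      have e1 : (fun r : ℝ => Real.exp (1 / (r + 1))) =
          fun x => Real.exp ((fun x => id x + 1)⁻¹ x) := by
        ext y; simp only [id, Pi.inv_apply, one_div]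
      rw [e1]
      refine this.congr_deriv ?_
      simp only [id, Pi.inv_apply, one_div]
      field_simp
    rw [this, intervalIntegral.integral_add (sc (c1.intervalIntegrable _ _) _)
      (sc (c2.intervalIntegrable _ _) _), intervalIntegral.integral_smul_const,
      intervalIntegral.integral_smul_const, h2]
    ext i; fin_cases i <;> simp [z, abs_of_nonneg ht]

theorem zlow (t : ℝ) (ht : 0 ≤ t) : Real.log (t + 1) ≤ ‖z t‖ := by
  refine le_trans ?_ ((le_abs_self _).trans (norm_le_pi_norm (z t) 0))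
  have h1 : ∫ r in (0 : ℝ)..t, 1 / (|r| + 1) = Real.log (t + 1) - Real.log (0 + 1) := by
    refine integral_eq_sub_of_hasDerivAt (f := fun r => Real.log (r + 1))
      (fun r hr => ?_) (cg.intervalIntegrable _ _)
    have hr0 : 0 ≤ r := le_trans (le_min le_rfl ht) hr.1
    rw [abs_of_nonneg hr0]
    exact ((hasDerivAt_id r).add_const 1).log (by simp only [id]; positivity)
  have h2 : ∫ r in (0 : ℝ)..t, 1 / (|r| + 1) ≤
      ∫ r in (0 : ℝ)..t, 1 / (|r| + 1) * Real.exp (1 / (|r| + 1)) :=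
    integral_mono_on ht (cg.intervalIntegrable _ _)
      ((cg.mul (Real.continuous_exp.comp cg)).intervalIntegrable _ _) fun r _ =>
      le_mul_of_one_le_right (by positivity) (Real.one_le_exp (by positivity))
  simp only [zero_add, Real.log_one, sub_zero] at h1
  rw [← h1]; exact h2

theorem zbig (C : ℝ) : ∀ᶠ t : ℝ in atTop, C ≤ ‖z t‖ := by
  have := (Real.tendsto_log_atTop.comp (tendsto_atTop_add_const_right _ 1 tendsto_id)).eventually_ge_atTop C
  filter_upwards [this, eventually_ge_atTop 0] with t h1 h2 using h1.trans (zlow t h2)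

theorem result : ∃ (d : ℕ) (𝒜 : Set (Matrix (Fin d) (Fin d) ℝ)), 1 ≤ d ∧ IsCompact 𝒜 ∧
    lyap 𝒜 = 0 ∧ (∃ x, IsTraj 𝒜 x ∧ ¬ ∃ C, ∀ t, 0 ≤ t → ‖x t‖ ≤ C) ∧
    Tendsto (fun t : ℝ => growth 𝒜 t / ENNReal.ofReal t) atTop (nhds 0) := by
  refine ⟨2, F, by norm_num, isCompact_Icc.image ?_, le_antisymm ?_ ?_, ⟨z, hz, ?_⟩, ?_⟩
  · refine continuous_matrix fun i j => ?_
    fin_cases i <;> fin_cases j <;> simp <;> fun_prop
  · refine iSup₂_le fun x hx => ?_
    refine EReal.le_of_forall_lt_iff_le.1 fun e he => ?_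
    have he : 0 < e := by exact_mod_cast he
    refine limsup_le_of_le (by isBoundedDefault) ?_
    have h1 : ∀ᶠ t : ℝ in atTop, ‖x 0‖ * (2 + t) ≤ Real.exp (e * t) := by
      filter_upwards [eventually_ge_atTop 2, eventually_ge_atTop (4 * ‖x 0‖ / e ^ 2)] with t h2 h3
      have := Real.quadratic_le_exp_of_nonneg (by positivity : 0 ≤ e * t)
      rw [div_le_iff₀ (by positivity)] at h3
      nlinarith [norm_nonneg (x 0), mul_pos he (by linarith : 0 < t)]
    filter_upwards [h1, eventually_gt_atTop 0] with t h1 ht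
    have h2 : ‖x t‖ ≤ Real.exp (e * t) := by
      have := main x hx 1 one_pos t ht.le
      norm_num at this
      exact this.trans h1
    have h3 : ENNReal.log ‖x t‖ₑ ≤ ((e * t : ℝ) : EReal) := by
      rw [← ofReal_norm_eq_enorm]
      refine (ENNReal.log_monotone (ENNReal.ofReal_le_ofReal h2)).trans ?_
      rw [ENNReal.log_ofReal_of_pos (Real.exp_pos _), Real.log_exp]
    refine (mul_le_mul_of_nonneg_left h3 (by exact_mod_cast (by positivity : 0 ≤ 1 / t))).trans ?_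
    rw [← EReal.coe_mul]
    exact_mod_cast le_of_eq (by field_simp)
  · refine le_iSup₂_of_le z hz (le_limsup_of_frequently_le (Eventually.frequently ?_))
    filter_upwards [zbig 1, eventually_gt_atTop 0] with t h1 ht
    refine mul_nonneg (by exact_mod_cast (by positivity : 0 ≤ 1 / t)) ?_
    rw [← ofReal_norm_eq_enorm, ENNReal.log_ofReal_of_pos (by linarith)]
    exact_mod_cast Real.log_nonneg h1
  · rintro ⟨C, hC⟩
    obtain ⟨t, h1, h2⟩ := ((zbig (C + 1)).and (eventually_ge_atTop 0)).exists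
    linarith [hC t h2]
  · refine ENNReal.tendsto_nhds_zero.2 fun ε hε => ?_
    obtain ⟨e, he0, he⟩ : ∃ e : ℝ, 0 < e ∧ ENNReal.ofReal (2 * e) ≤ ε := by
      obtain ⟨r, hr0, hr⟩ := ENNReal.lt_iff_exists_nnreal_btwn.1 hε
      refine ⟨r / 2, by have : (0 : ℝ) < r := by exact_mod_cast hr0
                        positivity, ?_⟩
      rw [mul_div_cancel₀ _ two_ne_zero, ENNReal.ofReal_coe_nnreal]; exact hr.le
    filter_upwards [eventually_ge_atTop ((1 + 1 / e) / e), eventually_gt_atTop 0] with t h1 ht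
    refine le_trans (ENNReal.div_le_of_le_mul (iSup₂_le fun x hx => ?_)) he
    rw [← ENNReal.ofReal_mul (by positivity), ← ofReal_norm_eq_enorm]
    refine ENNReal.ofReal_le_ofReal ((main x hx.1 e he0 t ht.le).trans ?_)
    rw [div_le_iff₀ he0] at h1
    have : 0 ≤ 1 + 1 / e + e * t := by positivity
    nlinarith [mul_le_mul_of_nonneg_right hx.2 this]

end Pool.Agent.Results.MP_c2c39f_an.Sublinear
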